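import Pool.Agent.H30.EE.TargetsG

/-!
# MP_70ba79_ag, board `ee_modules`, row CH1: from `T` to `T + I_d`

The space `Iz (a + 2) z` is the sum of the spaces `X ^ M • Iz 2 z` over the monomials `X ^ M` of
degree `a` (GEN). They are added one after the other: each step costs at most `Da 2 z` and the
dimension grows if the space changes.
-/

set_option autoImplicit false

namespace Pool.Agent.H18.EE

open MvPolynomial SC Pool.Agent.H27.LV Pool.Agent.H17.VG Pool.Agent.H30.EE

lemma ch1_up_mono {k K : Type} [Field k] [Field K] [Algebra k K] {n : ℕ} (f : Fin (n + 1) → ℕ) :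
    up K (mono k f) = mono K f := by
  unfold up mono
  rw [map_monomial, map_one]

lemma ch1_mono_ne {k : Type} [Field k] {n : ℕ} (f : Fin (n + 1) → ℕ) :
    (mono k f : MvPolynomial (Fin (n + 1)) k) ≠ 0 := by
  unfold mono
  rw [Ne, monomial_eq_zero]
  exact one_ne_zero

lemma ch1_span {K : Type} [Field K] {n : ℕ} (a : ℕ)
    (V : Submodule K (MvPolynomial (Fin (n + 1)) K)) :
    Submodule.span K {H | ∃ G ∈ V, ∃ M : Mon (n + 1) a, H = mono K M.1 * G} =
      ⨆ M : Mon (n + 1) a, mulW (mono K M.1) V := by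
  apply le_antisymm
  · rw [Submodule.span_le]
    rintro H ⟨G, hG, M, rfl⟩
    exact (le_iSup (fun M : Mon (n + 1) a => mulW (mono K M.1) V) M)
      (Submodule.mem_map.2 ⟨G, hG, rfl⟩)
  · refine iSup_le fun M => ?_
    rintro H hH
    obtain ⟨G, hG, rfl⟩ := Submodule.mem_map.1 hH
    exact Submodule.subset_span ⟨G, hG, M, rfl⟩

theorem pf_CH1 (hMUL : T_MUL) (hDSP : T_DSP) (hDAI : T_DAI) (hGEN : T_GEN) : T_CH1 := by
  intro k K _ _ _ _ _ _ htr n r a z hz T hT
  have hz0 : z 0 ≠ 0 := hz.ne_zero 0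
  have hD := hDSP k K htr n (a + 2)
  have hfd : FiniteDimensional K (Sd K n (a + 2)) := by
    have h1 := (hD.2.2.2.2.2 (z 0) hz0).2
    exact Module.finite_of_finrank_pos (by omega)
  have hD2 := hDAI k K htr r n 2 z hz
  have hV : ∀ M : Mon (n + 1) a, mulW (mono K M.1) (Iz 2 z) ≤ Sd K n (a + 2) ∧
      dS k n (a + 2) (mulW (mono K M.1) (Iz 2 z)) = -Da k 2 z := by
    intro M
    constructor
    · intro H hH
      obtain ⟨G, hG, rfl⟩ := Submodule.mem_map.1 hH
      have hG2 : G.IsHomogeneous 2 := hG.1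
      exact (isHomogeneous_mono (K := K) M).mul hG2
    · have h1 := hMUL k K htr n 2 a (mono k M.1) (ch1_mono_ne M.1) (isHomogeneous_mono M)
        (Iz 2 z) inf_le_left
      rw [ch1_up_mono, Nat.add_comm 2 a] at h1
      rw [h1, hD2.1]
  have key : ∀ s : Finset (Mon (n + 1) a), ∀ U, U = T ⊔ s.sup (fun M => mulW (mono K M.1) (Iz 2 z)) →
      U ≤ Sd K n (a + 2) ∧
      -(((Module.finrank K U : ℤ) - Module.finrank K T) * Da k 2 z) ≤
        dS k n (a + 2) U - dS k n (a + 2) T := by
    classical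
    intro s
    induction s using Finset.induction_on with
    | empty =>
      intro U hU
      rw [Finset.sup_empty, sup_bot_eq] at hU
      subst hU
      exact ⟨hT, by simp⟩
    | insert M s hM ih =>
      intro U hU
      obtain ⟨h1, h2⟩ := ih _ rfl
      set U0 := T ⊔ s.sup (fun M => mulW (mono K M.1) (Iz 2 z)) with hU0
      have hUU : U = U0 ⊔ mulW (mono K M.1) (Iz 2 z) := by
        rw [hU, Finset.sup_insert, hU0, sup_assoc, sup_comm (mulW (mono K M.1) (Iz 2 z))]
      have hUle : U ≤ Sd K n (a + 2) := by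
        rw [hUU]; exact sup_le h1 (hV M).1
      refine ⟨hUle, ?_⟩
      by_cases hle : mulW (mono K M.1) (Iz 2 z) ≤ U0
      · rw [sup_eq_left.2 hle] at hUU
        rw [hUU]; exact h2
      · have hlt : U0 < U := by
          refine lt_of_le_of_ne (hUU ▸ le_sup_left) ?_
          intro h
          exact hle (h ▸ hUU ▸ le_sup_right)
        have hfU : FiniteDimensional K U := Submodule.finiteDimensional_of_le hUle
        have h3 := Submodule.finrank_lt_finrank_of_lt hlt
        have h4 := hD.2.2.2.1 U0 h1 _ (hV M).1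
        have h5 := hD.2.2.1 (U0 ⊓ mulW (mono K M.1) (Iz 2 z))
        rw [(hV M).2, ← hUU] at h4
        have h6 : (Module.finrank K U0 : ℤ) + 1 ≤ Module.finrank K U := by exact_mod_cast h3
        have h7 := hD2.2.1
        nlinarith [mul_le_mul_of_nonneg_right h6 h7]
  have hI : Iz (a + 2) z = Finset.univ.sup (fun M : Mon (n + 1) a => mulW (mono K M.1) (Iz 2 z)) := by
    rw [hGEN K n r a z hz, ch1_span, Finset.sup_univ_eq_iSup]
  exact (key Finset.univ _ (by rw [hI])).2

end Pool.Agent.H18.EE
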