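import Pool.Agent.H27.LV.Curve
import Pool.Agent.H36.EE.CHA

/-!
# MP_70ba79_ag, board `ee_modules`, row G6G: (6g)

Curves of small height through the generic point: either the height `Da 2 z` is at most
`canDeg D + S.card`, or the curve meets the hypersurface in at most two points.
-/

set_option autoImplicit false

namespace Pool.Agent.H18.EE

open MvPolynomial SC Pool.Agent.H27.LV Pool.Agent.H17.VG Pool.Agent.H30.EE

/-- a point of positive height and its derivative are independent -/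
lemma g6g_indep (hHG : T_HG) {k K : Type} [Field k] [IsAlgClosed k] [CharZero k] [Field K]
    [Algebra k K] [Algebra.EssFiniteType k K] (htr : Algebra.trdeg k K = 1) (D : Derivation k K K)
    (hD : D ≠ 0) {n : ℕ} (x : Fin (n + 1) → K) (hx : 0 < hgt k x) :
    Indep x fun i => D (x i) := by
  obtain ⟨-, -, h3, h4, -, -, -, -⟩ := hHG k K htr (Fin (n + 1)) x
  have hx0 : x ≠ 0 := by
    intro h0
    have h5 := h4 fun _ => 0
    have h6 : (fun _ : Fin (n + 1) => algebraMap k K 0) = x := by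
      rw [h0]
      funext i
      exact map_zero _
    rw [h6] at h5
    omega
  obtain ⟨i, hi⟩ := Function.ne_iff.1 hx0
  have hi' : x i ≠ 0 := hi
  obtain ⟨j, hj⟩ : ∃ j, D (x j / x i) ≠ 0 := by
    by_contra hcon
    push Not at hcon
    choose a ha using fun j => ker k K htr D hD _ (hcon j)
    have h5 : x = x i • fun j => algebraMap k K (a j) := by
      funext j
      rw [Pi.smul_apply, ha j, smul_eq_mul, mul_div_cancel₀ _ hi']
    have h6 := h4 a
    have h7 : x i • (fun j => algebraMap k K (a j)) ≠ 0 := by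
      rw [← h5]; exact hx0
    have h8 : hgt k x = hgt k fun j => algebraMap k K (a j) := by
      have h9 := (hHG k K htr (Fin (n + 1)) fun j => algebraMap k K (a j)).2.2.1 (x i) hi'
      rw [← h9, ← h5]
    omega
  unfold Indep
  rw [LinearIndependent.pair_iff]
  intro s t hst
  have h1 := congrFun hst i
  have h2 := congrFun hst j
  simp only [Pi.add_apply, Pi.smul_apply, smul_eq_mul, Pi.zero_apply] at h1 h2
  have h5 : t * (x i * D (x j) - x j * D (x i)) = 0 := by linear_combination x i * h2 - x j * h1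
  have h6 : x i * D (x j) - x j * D (x i) ≠ 0 := by
    intro h7
    apply hj
    rw [Derivation.leibniz_div]
    simp only [smul_eq_mul]
    rw [h7, mul_zero]
  have ht : t = 0 := (mul_eq_zero.1 h5).resolve_right h6
  rw [ht, zero_mul, add_zero] at h1
  exact ⟨(mul_eq_zero.1 h1).resolve_right hi', ht⟩

theorem pf_G6G (hG : Pool.Agent.H17.VG.T_G) (hSO : Pool.Agent.H17.VG.T_SO) (hHG : T_HG)
    (hDAI : T_DAI) (hVOL : T_VOL) (hCHA : T_CHA) (hRIG : T_RIG) (hGNU : T_GNU) (hHIN : T_HIN)
    (hIFR : T_IFR) (hRMD : T_RMD) : T_G6G := by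
  intro ε R C2 hε
  obtain ⟨n1, hn1⟩ := hGNU ε R C2 hε
  refine ⟨n1 + 2 + R, ?_⟩
  intro n e r hn hd hr hrR k _ _ _ c hc K _ _ _ htr D hD0 z hz hh hF S hS hχ hD2
  have hcK : CharZero K := charZero_of_injective_algebraMap (algebraMap k K).injective
  have he : 2 ≤ e := by
    have h1 : (n : ℚ) < e + 1 := by
      have h2 : (0 : ℚ) < n := by
        have : 0 < n := by omega
        exact_mod_cast this
      nlinarith
    have h3 : n < e + 1 := by exact_mod_cast h1
    omega
  obtain ⟨a, rfl⟩ : ∃ a, e = a + 1 := ⟨e - 1, by omega⟩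
  obtain ⟨R', hR'⟩ := hG k n (a + 1) c he hc
  obtain ⟨D', hD', hsys, hrat⟩ := hR' K htr D hD0
  have hxD : Indep (z 0) fun i => D (z 0 i) := g6g_indep hHG htr D hD0 (z 0) hh
  have hxD' : Indep (z 0) fun i => D' (z 0 i) := by
    have h1 : (fun i => D' (z 0 i)) = fun i => D (z 0 i) := funext fun i => hD' _
    rw [h1]
    exact hxD
  have hsm := hSO k n (a + 1) c hc
  set L := Submodule.span K (Set.range z) with hL
  have hLr : Module.finrank K L = r + 1 := by
    rw [hL, finrank_span_eq_card hz, Fintype.card_fin]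
  have hzL : z 0 ∈ L := Submodule.subset_span ⟨0, rfl⟩
  have hIF := hIFR R' K n (a + 1) r (up K (frm c)) D' (z 0) L hsys hxD' hF hzL hLr
  set T := TL R' (a + 1 + 1) (up K (frm c)) (z 0) L with hT
  have hTM : T ≤ Md (a + 1 + 1) (z 0) := by
    rw [hT]
    unfold TL
    rw [Submodule.span_le]
    rintro G ⟨hG, -⟩
    exact hG
  have hMS : Md (a + 1 + 1) (z 0) ≤ Sd K n (a + 1 + 1) := inf_le_left
  have hfS : Module.Finite K (Sd K n (a + 1 + 1)) :=
    Module.Finite.iff_fg.2 (homogeneousSubmodule_fg _ _ _)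
  have hfM : Module.Finite K (Md (a + 1 + 1) (z 0)) := Submodule.finiteDimensional_of_le hMS
  obtain ⟨-, hR1, hR2⟩ := hRMD K n r (a + 1 + 1) z hz
  -- dimensions
  obtain ⟨e0, he0⟩ : ∃ e0, e0 + 2 = (r + 1) * (n - r + 1) := by
    refine ⟨(r + 1) * (n - r + 1) - 2, ?_⟩
    have h1 : (r + 1) * 1 ≤ (r + 1) * (n - r + 1) := Nat.mul_le_mul_left _ (by omega)
    omega
  have hTe : Module.finrank K T + e0 = Module.finrank K (Md (a + 1 + 1) (z 0)) := by omega
  have hMm := Pool.Agent.H36.EE.finrank_sup_Iz z (Md (a + 1 + 1) (z 0)) hMS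
  rw [sup_eq_left.2 hR2] at hMm
  have hTm := Pool.Agent.H36.EE.finrank_sup_Iz z T (hTM.trans hMS)
  have hTle : Module.finrank K T ≤ Module.finrank K ↥(T ⊔ Iz (a + 1 + 1) z) := by
    have hfs : Module.Finite K ↥(T ⊔ Iz (a + 1 + 1) z) :=
      Submodule.finiteDimensional_of_le (sup_le (hTM.trans hMS) inf_le_left)
    exact Submodule.finrank_mono le_sup_left
  have hmap : Module.finrank K (T.map (resL z)) ≤
      Module.finrank K ((Md (a + 1 + 1) (z 0)).map (resL z)) := by
    have hfm : Module.Finite K ((Md (a + 1 + 1) (z 0)).map (resL z)) := inferInstance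
    exact Submodule.finrank_mono (Submodule.map_mono hTM)
  obtain ⟨m', hm'⟩ : ∃ m', Module.finrank K (T.map (resL z)) + m' = r * (a + 1 + 1) := by
    refine ⟨r * (a + 1 + 1) - Module.finrank K (T.map (resL z)), ?_⟩
    omega
  have hm1 : m' ≤ r * (a + 1 + 1) := by omega
  have hm2 : m' ≤ e0 := by omega
  -- the height inequality and the chain
  have hH := hHIN R' k K htr n (a + 1) r (frm c) (frm_homog c) hsm D D' hD0 hD' hsys hrat (z 0)
    hxD hF S hS L hzL hLr
  have hC := hCHA k K htr n r a z hr hz T hTM m' hm'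
  have hDA := hDAI k K htr r n 1 z hz
  obtain ⟨hV1, hV2⟩ := hVOL k K htr n r z hz
  have h1 : Da k 1 z = -dg k L := hDA.2.2.2
  have hTz : (Module.finrank K T : ℤ) + e0 = Module.finrank K (Md (a + 1 + 1) (z 0)) := by
    exact_mod_cast hTe
  have hkey : (((a + 1 + 1 : ℕ) : ℤ) - r - 1 - ((m' + r - 1) / r : ℕ)) * hgt k (z 0) +
      Da k (m' / r) z ≤ (canDeg D + S.card) + n * Da k 1 z + ((e0 : ℤ) - m') * Da k 2 z := by
    have h2 : (Module.finrank K (Md (a + 1 + 1) (z 0)) : ℤ) - Module.finrank K T - m' =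
        (e0 : ℤ) - m' := by linarith
    have h3 : Module.finrank K (Md (a + 2) (z 0)) = Module.finrank K (Md (a + 1 + 1) (z 0)) := rfl
    rw [h3, h2] at hC
    have h4 : dS k n (a + 2) (Md (a + 2) (z 0)) - dS k n (a + 2) T =
        dS k n (a + 1 + 1) (Md (a + 1 + 1) (z 0)) - dS k n (a + 1 + 1) T := rfl
    rw [h4] at hC
    push_cast at hH hC ⊢
    rw [h1]
    nlinarith
  have hN := hn1 n (a + 1 + 1) r m' e0 (by omega) (by push_cast at hd ⊢; linarith) hr hrR he0 hm1
    hm2 (hgt k (z 0)) (canDeg D + S.card) (Da k 1 z) (Da k 2 z) (fun b => Da k b z) hh hχ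
    (hV1 1).1 (hV1 1).2 hD2 hV1 hV2 hkey
  rcases hRIG R' K n (a + 1) r (up K (frm c)) D' z hr hsys hxD' hF hz e0 m' hTe hm' hN.1 with h | h
  · left
    exact hN.2 h
  · right
    exact h

end Pool.Agent.H18.EE
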