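import Pool.Agent.H30.EE.TargetsG

/-!
# MP_70ba79_ag, board `ee_modules`, row GNU: the numbers in (6g)

With `C = R (R + 1 + (R + 2) C2) + R` the height inequality gives `m' ≥ r d - C`; the rest follows
for `ε n ≥ 2 C + 2 R + (R + 1) ^ 2 + 1` and `n ≥ 15 + R`.
-/

set_option autoImplicit false

namespace Pool.Agent.H18.EE

open Pool.Agent.H30.EE

theorem pf_GNU : T_GNU := by
  intro ε R C2 hε
  obtain ⟨C, hC⟩ : ∃ C : ℕ, C = R * (R + 1 + (R + 2) * C2) + R := ⟨_, rfl⟩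
  obtain ⟨N0, hN0⟩ : ∃ N0 : ℕ, N0 = 2 * C + 2 * R + (R + 1) ^ 2 + 1 := ⟨_, rfl⟩
  obtain ⟨A, hA⟩ : ∃ A : ℕ, (N0 : ℚ) / ε ≤ A := exists_nat_ge _
  refine ⟨A + 15 + R, ?_⟩
  intro n d r m' e0 hn hd hr hrR he0 hm1 hm2 h χ D1 D2 DD hh hχ hD1 hD12 hD2 hDD hvol h6e
  have hD20 : 0 ≤ D2 := hD1.trans hD12
  -- `ε n ≥ N0`
  have hεn : (N0 : ℚ) ≤ ε * n := by
    have h1 : (A : ℚ) ≤ n := by
      have : A ≤ n := by omega
      exact_mod_cast this
    have h2 : (N0 : ℚ) ≤ A * ε := by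
      rwa [div_le_iff₀ hε] at hA
    nlinarith
  -- `d ≥ n + N0`
  have hdN : n + N0 ≤ d := by
    have h1 : (n : ℚ) + N0 ≤ d := by nlinarith
    exact_mod_cast h1
  -- bound for `e0`
  have hrn : r ≤ n := by omega
  have he1 : e0 ≤ (r + 1) * n := by
    obtain ⟨p, hp⟩ := Nat.exists_eq_add_of_le hrn
    have h1 : n - r = p := by omega
    rw [h1] at he0
    have h2 : (r + 1) * n = (r + 1) * r + (r + 1) * p := by rw [hp]; ring
    have h3 : (r + 1) * (p + 1) = (r + 1) * p + (r + 1) := by ring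
    have h4 : 1 * r ≤ r * r := Nat.mul_le_mul_right r hr
    have h5 : (r + 1) * r = r * r + r := by ring
    omega
  obtain ⟨q, hq⟩ : ∃ q : ℕ, q = (m' + r - 1) / r := ⟨_, rfl⟩
  obtain ⟨a', ha'⟩ : ∃ a' : ℕ, a' = m' / r := ⟨_, rfl⟩
  rw [← hq, ← ha'] at h6e
  have hrq : r * q ≤ m' + r - 1 := by
    rw [hq]; exact Nat.mul_div_le _ _
  have hra : m' < r * (a' + 1) := by
    rw [ha']
    have := Nat.lt_div_mul_add (a := m') (b := r) (by omega)
    calc m' < m' / r * r + r := this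
      _ = r * (m' / r + 1) := by ring
  -- the lower bound of `q`
  have hrRz : (r : ℤ) ≤ R := by exact_mod_cast hrR
  have hr1z : (1 : ℤ) ≤ r := by exact_mod_cast hr
  have he1z : (e0 : ℤ) ≤ (r + 1) * n := by exact_mod_cast he1
  have hm2z : (m' : ℤ) ≤ e0 := by exact_mod_cast hm2
  have hm0z : (0 : ℤ) ≤ m' := by positivity
  have hqlow : (d : ℤ) - r - 1 - q ≤ (r + 2) * C2 := by
    by_contra hcon
    push Not at hcon
    have h1 : ((r + 2) * C2 + 1 : ℤ) * h ≤ ((d : ℤ) - r - 1 - q) * h :=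
      mul_le_mul_of_nonneg_right (by linarith) hh.le
    have h2 : ((e0 : ℤ) - m') * D2 ≤ ((r + 1) * n) * D2 :=
      mul_le_mul_of_nonneg_right (by linarith) hD20
    have h3 : (n : ℤ) * D1 ≤ n * D2 := mul_le_mul_of_nonneg_left hD12 (by positivity)
    have h4 := (hDD a').1
    have h5 : (r + 2 : ℤ) * (n * D2) ≤ (r + 2) * (C2 * h) :=
      mul_le_mul_of_nonneg_left hD2 (by positivity)
    nlinarith
  -- the lower bound of `m'`
  have hCz : (C : ℤ) = R * (R + 1 + (R + 2) * C2) + R := by rw [hC]; push_cast; ring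
  have hmlow : (r : ℤ) * d - C ≤ m' := by
    have h1 : (r : ℤ) * q ≤ m' + r - 1 := by
      have : r * q + 1 ≤ m' + r := by omega
      have h2 : (r : ℤ) * q + 1 ≤ m' + r := by exact_mod_cast this
      linarith
    have h2 : (r : ℤ) * ((d : ℤ) - r - 1 - q) ≤ r * ((r + 2) * C2) :=
      mul_le_mul_of_nonneg_left hqlow (by positivity)
    have h3 : (r : ℤ) * (r + 1 + (r + 2) * C2) ≤ R * (R + 1 + (R + 2) * C2) := by gcongr
    nlinarith
  have hN0z : (N0 : ℤ) = 2 * C + 2 * R + (R + 1) ^ 2 + 1 := by rw [hN0]; push_cast; ring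
  have hdNz : (n : ℤ) + N0 ≤ d := by exact_mod_cast hdN
  have hrd : (r : ℤ) * (n + N0) ≤ r * d := mul_le_mul_of_nonneg_left hdNz (by positivity)
  have hrN : (N0 : ℤ) ≤ r * N0 := by
    have : (0 : ℤ) ≤ N0 := by positivity
    nlinarith
  have hn0 : (0 : ℤ) ≤ n := by positivity
  have hC0 : (0 : ℤ) ≤ C := by positivity
  constructor
  · have h1 : (e0 : ℤ) + 2 * r + (r + 1) ^ 2 ≤ 2 * m' := by
      have h2 : ((r : ℤ) + 1) ^ 2 ≤ (R + 1) ^ 2 := by gcongr
      nlinarith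
    exact_mod_cast h1
  · intro hex
    have hqup : (0 : ℤ) ≤ (d : ℤ) - r - 1 - q := by
      have h1 : q ≤ d - r - 1 := by
        rw [hq]
        apply Nat.le_of_lt_succ
        rw [Nat.div_lt_iff_lt_mul (by omega)]
        have h2 : r * (r + 1) ≤ r * d := by omega
        have h3 : r + 1 ≤ d := Nat.le_of_mul_le_mul_left h2 (by omega)
        obtain ⟨s, hs⟩ := Nat.exists_eq_add_of_le h3
        have h4 : d - r - 1 = s := by omega
        rw [h4]
        have h5 : r * d = r * (r + 1) + r * s := by rw [hs]; ring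
        have h6 : (s + 1) * r = r * s + r := by ring
        have h7 : m' ≤ r * s := by omega
        show m' + r - 1 < (s + 1) * r
        omega
      have h2 : r + 1 ≤ d := by
        have h2 : r * (r + 1) ≤ r * d := by omega
        exact Nat.le_of_mul_le_mul_left h2 (by omega)
      omega
    have h1 : DD a' ≤ χ + n * D1 + ((e0 : ℤ) - m') * D2 := by
      have := mul_nonneg hqup hh.le
      linarith
    have h2 : ((e0 : ℤ) - m') ≤ n := by nlinarith
    have h3 : DD a' ≤ χ + 2 * n * D2 := by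
      have h4 : ((e0 : ℤ) - m') * D2 ≤ n * D2 := mul_le_mul_of_nonneg_right h2 hD20
      have h5 : (n : ℤ) * D1 ≤ n * D2 := mul_le_mul_of_nonneg_left hD12 hn0
      linarith
    -- `a' ≥ n`
    have ha : n ≤ a' := by
      by_contra hcon
      push Not at hcon
      have h4 : r * (a' + 1) ≤ r * n := Nat.mul_le_mul_left r hcon
      have h5 : (m' : ℤ) < r * n := by
        have : m' < r * n := lt_of_lt_of_le hra h4
        exact_mod_cast this
      nlinarith
    have hmono : Monotone DD := monotone_nat_of_le_succ fun a => (hDD a).2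
    obtain ⟨b, hb⟩ : ∃ b : ℕ, b = n / 2 := ⟨_, rfl⟩
    have hb1 : 2 * b ≤ n := by omega
    have hb2 : n ≤ 2 * b + 1 := by omega
    have hb7 : 7 ≤ b := by omega
    have h4 : DD (2 * b) ≤ DD a' := hmono (by omega)
    have h5 := hvol b
    have hb7z : (7 : ℤ) ≤ b := by exact_mod_cast hb7
    have hb2z : (n : ℤ) ≤ 2 * b + 1 := by exact_mod_cast hb2
    -- `2 b ^ 2 D2 ≤ 3 DD (2 b)`
    have h6 : (2 * b ^ 2 * D2 : ℤ) ≤ 3 * DD (2 * b) := by
      have h7 : (2 * b ^ 2 * (2 * r + 1) : ℤ) ≤ 3 * (b * (2 * r * b + 1)) := by nlinarith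
      have h8 : (2 * b ^ 2 * (2 * r + 1) : ℤ) * D2 ≤ 3 * (b * (2 * r * b + 1)) * D2 :=
        mul_le_mul_of_nonneg_right h7 hD20
      have h9 : (2 * r + 1 : ℤ) * (2 * b ^ 2 * D2) ≤ (2 * r + 1) * (3 * DD (2 * b)) := by
        linarith
      exact le_of_mul_le_mul_left h9 (by linarith)
    have h70 : (3 : ℤ) ≤ 2 * b ^ 2 - 6 * n := by
      have h71 : (7 : ℤ) * b ≤ b * b := mul_le_mul_of_nonneg_right hb7z (by linarith)
      have h72 : (b : ℤ) ^ 2 = b * b := pow_two _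
      rw [h72]
      linarith
    have h7 : (3 : ℤ) * D2 ≤ (2 * b ^ 2 - 6 * n) * D2 := mul_le_mul_of_nonneg_right h70 hD20
    have h8 : (2 * b ^ 2 - 6 * n : ℤ) * D2 = 2 * b ^ 2 * D2 - 3 * (2 * n * D2) := by ring
    linarith

end Pool.Agent.H18.EE
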