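import Pool.Agent.H30.EE.TargetsU

/-!
Module SHF of the board `ee_modules` (MP_70ba79_ag): shift of the parameter of a rational
normal curve.
-/

set_option autoImplicit false

namespace Pool.Agent.H18.EE

open MvPolynomial SC Pool.Agent.H27.LV Pool.Agent.H17.VG Pool.Agent.H17.BO Pool.Agent.H30.EE

section

variable {K : Type} [Field K] {r n : ℕ}

/-- the coordinate polynomials of the curve -/
noncomputable def Pc (z : Fin (r + 1) → Fin (n + 1) → K) (i : Fin (n + 1)) : Polynomial K :=
  ∑ j, Polynomial.C (z j i) * Polynomial.X ^ (j : ℕ)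

theorem Pc_deg (z : Fin (r + 1) → Fin (n + 1) → K) (i : Fin (n + 1)) :
    (Pc z i).natDegree < r + 1 := by
  unfold Pc
  refine lt_of_le_of_lt (Polynomial.natDegree_sum_le_of_forall_le (n := r) _ _ ?_)
    (Nat.lt_succ_self r)
  intro j _
  exact (Polynomial.natDegree_C_mul_X_pow_le _ _).trans (by omega)

theorem Pc_coeff (z : Fin (r + 1) → Fin (n + 1) → K) (i : Fin (n + 1)) (j : Fin (r + 1)) :
    (Pc z i).coeff j = z j i := by
  unfold Pc
  rw [Polynomial.finsetSum_coeff, Finset.sum_eq_single j]
  · simp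
  · intro l _ hl
    rw [Polynomial.coeff_C_mul_X_pow, if_neg]
    intro h
    exact hl (Fin.ext h.symm)
  · simp

theorem Pc_of (z : Fin (r + 1) → Fin (n + 1) → K) (i : Fin (n + 1)) (f : Polynomial K)
    (hf : f.natDegree < r + 1) (h : ∀ j : Fin (r + 1), z j i = f.coeff j) : Pc z i = f := by
  rw [f.as_sum_range' (r + 1) hf, Finset.sum_range]
  unfold Pc
  refine Finset.sum_congr rfl fun j _ => ?_
  rw [h j, Polynomial.C_mul_X_pow_eq_monomial]

/-- the shifted family -/
noncomputable def sh (z : Fin (r + 1) → Fin (n + 1) → K) (s : K) :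
    Fin (r + 1) → Fin (n + 1) → K := fun j i => (Polynomial.taylor s (Pc z i)).coeff j

theorem Pc_sh (z : Fin (r + 1) → Fin (n + 1) → K) (s : K) (i : Fin (n + 1)) :
    Pc (sh z s) i = Polynomial.taylor s (Pc z i) := by
  refine Pc_of _ _ _ ?_ fun j => rfl
  rw [Polynomial.natDegree_taylor]
  exact Pc_deg z i

theorem sh_sh (z : Fin (r + 1) → Fin (n + 1) → K) (s : K) : sh (sh z s) (-s) = z := by
  funext j i
  show (Polynomial.taylor (-s) (Pc (sh z s) i)).coeff j = z j i
  rw [Pc_sh, Polynomial.taylor_taylor]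
  simp [Pc_coeff]

theorem sh_mem (z : Fin (r + 1) → Fin (n + 1) → K) (s : K) (j : Fin (r + 1)) :
    sh z s j ∈ Submodule.span K (Set.range z) := by
  have h : sh z s j = ∑ l : Fin (r + 1),
      (Polynomial.taylor s ((Polynomial.X : Polynomial K) ^ (l : ℕ))).coeff j • z l := by
    funext i
    rw [Finset.sum_apply]
    show (Polynomial.taylor s (Pc z i)).coeff j = _
    unfold Pc
    rw [map_sum, Polynomial.finsetSum_coeff]
    refine Finset.sum_congr rfl fun l _ => ?_
    rw [← Polynomial.smul_eq_C_mul, map_smul, Polynomial.coeff_smul, Pi.smul_apply, smul_eq_mul,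
      smul_eq_mul, mul_comm]
  rw [h]
  exact Submodule.sum_mem _ fun l _ =>
    Submodule.smul_mem _ _ (Submodule.subset_span ⟨l, rfl⟩)

theorem sh_le (z : Fin (r + 1) → Fin (n + 1) → K) (s : K) :
    Submodule.span K (Set.range (sh z s)) ≤ Submodule.span K (Set.range z) := by
  rw [Submodule.span_le]
  rintro _ ⟨j, rfl⟩
  exact sh_mem z s j

end

theorem pf_SHF : T_SHF := by
  intro K _ _ r n z s hz
  have hs : Submodule.span K (Set.range (sh z s)) = Submodule.span K (Set.range z) := by
    refine le_antisymm (sh_le z s) ?_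
    have := sh_le (sh z s) (-s)
    rwa [sh_sh] at this
  refine ⟨sh z s, ?_, ?_, hs, ?_⟩
  · rw [linearIndependent_iff_card_eq_finrank_span, Set.finrank, hs]
    exact linearIndependent_iff_card_eq_finrank_span.1 hz
  · intro j
    show (Polynomial.taylor s (Pc z j)).coeff ((0 : Fin (r + 1)) : ℕ) = _
    rw [Fin.val_zero, Polynomial.taylor_coeff_zero]
    unfold Pc
    rw [Polynomial.eval_finsetSum]
    refine Finset.sum_congr rfl fun i _ => ?_
    rw [Polynomial.eval_mul, Polynomial.eval_C, Polynomial.eval_pow, Polynomial.eval_X, mul_comm]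
  · intro G
    have h1 : resC (sh z s) G = aeval (Pc (sh z s)) G := rfl
    have h2 : resC z G = aeval (Pc z) G := rfl
    rw [h1, h2]
    have h3 : ∀ f : Polynomial K, f.comp (Polynomial.X + Polynomial.C s) =
        Polynomial.aeval (Polynomial.X + Polynomial.C s : Polynomial K) f := fun f => rfl
    rw [h3, MvPolynomial.comp_aeval_apply]
    congr 2
    funext i
    rw [Pc_sh]
    rfl

end Pool.Agent.H18.EE
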