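import Pool.Agent.H30.EE.TargetsU
import Pool.Agent.H52.VG.RS
import Pool.Agent.H66.VG.IM

/-!
Module TAN of the board `ee_modules` (MP_70ba79_ag): the tangent line at the base point of a
rational normal curve.
-/

set_option autoImplicit false

namespace Pool.Agent.H18.EE

open MvPolynomial SC Pool.Agent.H27.LV Pool.Agent.H17.VG Pool.Agent.H17.BO Pool.Agent.H30.EE
open Pool.Agent.H52.VG (dir_add dir_mul dir_C dir_X dir_lin)
open Pool.Agent.H66.VG (lin_homog)

section

variable {K : Type} [Field K] {r n : ℕ}

/-- the coordinate polynomials of the curve -/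
noncomputable def Pt (z : Fin (r + 1) → Fin (n + 1) → K) (i : Fin (n + 1)) : Polynomial K :=
  ∑ j, Polynomial.C (z j i) * Polynomial.X ^ (j : ℕ)

theorem resC_eq (z : Fin (r + 1) → Fin (n + 1) → K) (G : MvPolynomial (Fin (n + 1)) K) :
    resC z G = aeval (Pt z) G := rfl

theorem Pt_coeff (z : Fin (r + 1) → Fin (n + 1) → K) (i : Fin (n + 1)) (j : Fin (r + 1)) :
    (Pt z i).coeff j = z j i := by
  unfold Pt
  rw [Polynomial.finsetSum_coeff, Finset.sum_eq_single j]
  · simp
  · intro l _ hl
    rw [Polynomial.coeff_C_mul_X_pow, if_neg]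
    intro h
    exact hl (Fin.ext h.symm)
  · simp

theorem resC_zero (z : Fin (r + 1) → Fin (n + 1) → K) (G : MvPolynomial (Fin (n + 1)) K) :
    (resC z G).coeff 0 = eval (z 0) G := by
  rw [resC_eq]
  induction G using MvPolynomial.induction_on with
  | C a => rw [aeval_C, Polynomial.algebraMap_eq, Polynomial.coeff_C_zero, eval_C]
  | add p q hp hq => rw [map_add, Polynomial.coeff_add, hp, hq, map_add]
  | mul_X p i hp =>
    have h := Pt_coeff z i 0
    rw [Fin.val_zero] at h
    rw [map_mul, aeval_X, Polynomial.mul_coeff_zero, hp, h, map_mul, eval_X]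

theorem resC_one (z : Fin (r + 1 + 1) → Fin (n + 1) → K) (G : MvPolynomial (Fin (n + 1)) K) :
    (Polynomial.derivative (resC z G)).coeff 0 = eval (z 0) (dir (z 1) G) := by
  induction G using MvPolynomial.induction_on with
  | C a =>
    rw [resC_eq, aeval_C, Polynomial.algebraMap_eq, Polynomial.derivative_C, dir_C, map_zero,
      Polynomial.coeff_zero]
  | add p q hp hq =>
    rw [resC_eq, map_add, Polynomial.derivative_add, Polynomial.coeff_add, ← resC_eq, ← resC_eq,
      hp, hq, dir_add, map_add]
  | mul_X p i hp =>
    have h0 := Pt_coeff z i 0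
    have h1 := Pt_coeff z i 1
    rw [Fin.val_zero] at h0
    rw [Fin.val_one] at h1
    rw [resC_eq, map_mul, aeval_X, Polynomial.derivative_mul, Polynomial.coeff_add,
      Polynomial.mul_coeff_zero, Polynomial.mul_coeff_zero, ← resC_eq, hp, h0, resC_zero,
      Polynomial.coeff_derivative, zero_add, h1, dir_mul, dir_X, map_add, map_mul, map_mul,
      eval_X, eval_C]
    push_cast
    ring

end

theorem pf_TAN : T_TAN := by
  intro K _ _ r n z hz
  refine ⟨?_, ?_⟩
  · intro G _ hG
    rw [← resC_one, hG, Polynomial.derivative_zero, Polynomial.coeff_zero]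
  · intro w hw hv
    have hinj : LinearMap.ker (Fintype.linearCombination K z) = ⊥ := by
      rw [LinearMap.ker_eq_bot]
      exact LinearIndependent.fintypeLinearCombination_injective hz
    obtain ⟨g, hg⟩ := LinearMap.exists_leftInverse_of_injective _ hinj
    have hgz : ∀ m, g (z m) = Pi.single m 1 := by
      intro m
      have h := LinearMap.congr_fun hg (Pi.single m 1)
      rw [LinearMap.comp_apply, Fintype.linearCombination_apply_single, one_smul] at h
      exact h
    set ξ : Fin (r + 1 + 1) → Fin (n + 1) → K := fun l i => g (Pi.single i 1) l with hξ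
    have hξv : ∀ l (v : Fin (n + 1) → K), ∑ i, ξ l i * v i = g v l := by
      intro l v
      have h : v = ∑ i, v i • (Pi.single i 1 : Fin (n + 1) → K) := by
        funext j
        rw [Finset.sum_apply, Finset.sum_eq_single j]
        · simp
        · intro b _ hb
          simp [Ne.symm hb]
        · simp
      conv_rhs => rw [h, map_sum, Finset.sum_apply]
      refine Finset.sum_congr rfl fun i _ => ?_
      rw [map_smul, Pi.smul_apply, smul_eq_mul, mul_comm]
    have hres : ∀ l, resC z (lin (ξ l)) = (Polynomial.X : Polynomial K) ^ (l : ℕ) := by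
      intro l
      rw [resC_eq]
      unfold lin
      rw [map_sum]
      have h1 : ∀ i, (aeval (Pt z)) (C (ξ l i) * X i : MvPolynomial (Fin (n + 1)) K) =
          ∑ m, Polynomial.C (ξ l i * z m i) * (Polynomial.X : Polynomial K) ^ (m : ℕ) := by
        intro i
        rw [map_mul, aeval_X, aeval_C, Polynomial.algebraMap_eq]
        unfold Pt
        rw [Finset.mul_sum]
        refine Finset.sum_congr rfl fun m _ => ?_
        rw [Polynomial.C_mul, mul_assoc]
      rw [Finset.sum_congr rfl (fun i _ => h1 i), Finset.sum_comm]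
      have h2 : ∀ m, ∑ i, Polynomial.C (ξ l i * z m i) * (Polynomial.X : Polynomial K) ^ (m : ℕ) =
          if m = l then (Polynomial.X : Polynomial K) ^ (m : ℕ) else 0 := by
        intro m
        rw [← Finset.sum_mul, ← map_sum, hξv, hgz]
        by_cases h : m = l
        · subst h
          simp
        · rw [if_neg h, Pi.single_eq_of_ne (Ne.symm h)]
          simp
      rw [Finset.sum_congr rfl (fun m _ => h2 m)]
      simp
    have hev : ∀ l, eval (z 0) (lin (ξ l)) = if l = 0 then 1 else 0 := by
      intro l
      unfold lin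
      rw [map_sum]
      have h1 : ∀ i, eval (z 0) (C (ξ l i) * X i : MvPolynomial (Fin (n + 1)) K) =
          ξ l i * z 0 i := by
        intro i
        rw [map_mul, eval_C, eval_X]
      rw [Finset.sum_congr rfl (fun i _ => h1 i), hξv, hgz]
      by_cases h : l = 0
      · subst h; simp
      · rw [if_neg h, Pi.single_eq_of_ne h]
    have hzero : ∀ j : Fin r, g w j.succ.succ = 0 := by
      intro j
      have h := hv (lin (ξ 0) * lin (ξ j.succ.succ) - lin (ξ 1) * lin (ξ j.succ.castSucc)) ?_ ?_
      · have hd : dir w (lin (ξ 0) * lin (ξ j.succ.succ) - lin (ξ 1) * lin (ξ j.succ.castSucc)) =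
            dir w (lin (ξ 0) * lin (ξ j.succ.succ)) - dir w (lin (ξ 1) * lin (ξ j.succ.castSucc)) := by
          have h3 := dir_add w (lin (ξ 0) * lin (ξ j.succ.succ) -
            lin (ξ 1) * lin (ξ j.succ.castSucc)) (lin (ξ 1) * lin (ξ j.succ.castSucc))
          rw [sub_add_cancel] at h3
          rw [h3, add_sub_cancel_right]
        rw [hd, dir_mul, dir_mul, dir_lin, dir_lin, dir_lin, dir_lin, map_sub, map_add, map_add,
          map_mul, map_mul, map_mul, map_mul, eval_C, eval_C, eval_C, eval_C, hev, hev, hev, hev,
          hξv, hξv, hξv, hξv] at h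
        have a1 : (j.succ.succ : Fin (r + 1 + 1)) ≠ 0 := Fin.succ_ne_zero _
        have a2 : (j.succ.castSucc : Fin (r + 1 + 1)) ≠ 0 := by
          intro h4
          have := congrArg Fin.val h4
          simp at this
        have a3 : (1 : Fin (r + 1 + 1)) ≠ 0 := by
          intro h4
          have := congrArg Fin.val h4
          simp at this
        rw [if_neg a1, if_neg a2, if_neg a3, if_pos rfl] at h
        simpa using h
      · have hh : (1 + 1 : ℕ) = 2 := rfl
        rw [← hh]
        exact ((lin_homog _).mul (lin_homog _)).sub ((lin_homog _).mul (lin_homog _))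
      · rw [resC_eq, map_sub, map_mul, map_mul, ← resC_eq, ← resC_eq, ← resC_eq, ← resC_eq, hres,
          hres, hres, hres, ← pow_add, ← pow_add]
        have : ((0 : Fin (r + 1 + 1)) : ℕ) + (j.succ.succ : Fin (r + 1 + 1)) =
            ((1 : Fin (r + 1 + 1)) : ℕ) + (j.succ.castSucc : Fin (r + 1 + 1)) := by
          simp
          omega
        rw [this, sub_self]
    have hwg : w = ∑ m, g w m • z m := by
      rw [Submodule.mem_span_range_iff_exists_fun] at hw
      obtain ⟨c, hc⟩ := hw
      have : g w = c := by
        rw [← hc]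
        exact LinearMap.congr_fun hg c
      rw [this, hc]
    rw [hwg, Fin.sum_univ_succ, Fin.sum_univ_succ]
    have h0 : ∑ i : Fin r, g w i.succ.succ • z i.succ.succ = 0 :=
      Finset.sum_eq_zero fun i _ => by rw [hzero i, zero_smul]
    rw [h0, add_zero]
    refine Submodule.add_mem _ (Submodule.smul_mem _ _ (Submodule.subset_span (by simp)))
      (Submodule.smul_mem _ _ (Submodule.subset_span ?_))
    right
    rfl

end Pool.Agent.H18.EE
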